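import Pool.Agent.W620.BM.Stm

/-!
BM-LOC, part 1: the left regular representation in a dual basis and the reduced trace.
-/

open scoped TensorProduct Topology
open Matrix

namespace Pool.Agent.W253.BM

open Pool.Agent.W620.BM

lemma stdBasis_repr {n : ℕ} (M : Mat n) (p : Fin n × Fin n) :
    (Matrix.stdBasis ℂ (Fin n) (Fin n)).repr M p = M p.1 p.2 := by
  simp [Matrix.stdBasis]

lemma trace_mulLeft {n : ℕ} (m : Mat n) :
    LinearMap.trace ℂ (Mat n) (LinearMap.mulLeft ℂ m) = n * m.trace := by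
  rw [LinearMap.trace_eq_matrix_trace ℂ (Matrix.stdBasis ℂ (Fin n) (Fin n)), Matrix.trace]
  simp only [Matrix.diag_apply, LinearMap.toMatrix_apply, LinearMap.mulLeft_apply,
    Fintype.sum_prod_type, stdBasis_eq_single, stdBasis_repr]
  have : ∀ i j : Fin n, (m * single i j (1 : ℂ)) i j = m i i := by
    intro i j
    simp
  simp only [this, Finset.sum_const, Finset.card_univ, Fintype.card_fin, nsmul_eq_mul]
  rw [Matrix.trace, Finset.mul_sum]
  rfl

section fact
variable {R B : Type} [CommRing R] [Ring B] [Algebra R B]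

/-- left multiplication on generators -/
noncomputable def lam {N : ℕ} (x : R →+* ℂ) (b : Fin N → B) (φ : Fin N → (B →ₗ[R] R)) (y : B) :
    Mat N := Matrix.of fun k l => x (φ k (y * b l))

lemma exists_dual [Module.Finite R B] [Module.Projective R B] :
    ∃ (N : ℕ) (b : Fin N → B) (φ : Fin N → (B →ₗ[R] R)), ∀ y, ∑ k, φ k y • b k = y := by
  obtain ⟨N, f, hf⟩ := Module.Finite.exists_fin' R B
  obtain ⟨g, hg⟩ := Module.projective_lifting_property f LinearMap.id hf
  refine ⟨N, fun k => f (Pi.single k 1), fun k => (LinearMap.proj k).comp g, fun y => ?_⟩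
  have h1 : f (g y) = y := congrArg (fun h => h y) hg
  conv_rhs => rw [← h1]
  have h2 : g y = ∑ k, (g y k) • (Pi.single k 1 : Fin N → R) := by
    funext l
    rw [Finset.sum_apply]
    simp [Pi.single_apply]
  conv_rhs => rw [h2, map_sum]
  refine Finset.sum_congr rfl (fun k _ => ?_)
  rw [map_smul]
  rfl

lemma fact (hcsa : S_csa) [IsAzumaya R B] (x : R →+* ℂ) {n : ℕ} (hn : 0 < n) (s : B →+* Mat n)
    (hs : IsRep x s) {N : ℕ} (b : Fin N → B) (φ : Fin N → (B →ₗ[R] R))
    (hb : ∀ y, ∑ k, φ k y • b k = y) :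
    ∃ G : Mat n →ₗ[ℂ] Mat N, (∀ m m', G (m * m') = G m * G m') ∧
      (∀ y, G (s y) = lam x b φ y) ∧ (∀ m, (G m).trace = n * m.trace) := by
  let _ : Algebra R ℂ := x.toAlgebra
  have hx : ∀ r, algebraMap R ℂ r = x r := fun _ => rfl
  have : Nonempty (Fin n) := ⟨⟨0, hn⟩⟩
  obtain ⟨_, hsimple, _⟩ := hcsa R B ℂ
  -- the map from the fibre
  let sR : B →ₐ[R] Mat n := { s with commutes' := hs.scalar }
  let π : ℂ ⊗[R] B →ₐ[ℂ] Mat n := Algebra.TensorProduct.lift (Algebra.ofId ℂ (Mat n)) sR
    (fun c y => Algebra.commutes c (sR y))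
  have hπ : ∀ (c : ℂ) (y : B), π (c ⊗ₜ[R] y) = c • s y := by
    intro c y
    refine (Algebra.TensorProduct.lift_tmul _ _ _ c y).trans ?_
    rw [Algebra.ofId_apply, Algebra.smul_def]
    rfl
  have hinj : Function.Injective π := RingHom.injective (π : ℂ ⊗[R] B →+* Mat n)
  have hsurj : Function.Surjective π := by
    intro m
    have hm : m ∈ Submodule.span ℂ (Set.range s) := by rw [hs.span]; trivial
    have hle : Submodule.span ℂ (Set.range s) ≤ LinearMap.range π.toLinearMap := by
      rw [Submodule.span_le]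
      rintro _ ⟨y, rfl⟩
      refine ⟨(1 : ℂ) ⊗ₜ[R] y, ?_⟩
      rw [AlgHom.toLinearMap_apply, hπ, one_smul]
    obtain ⟨a, ha⟩ := hle hm
    exact ⟨a, ha⟩
  let Pe : (ℂ ⊗[R] B) ≃ₗ[ℂ] Mat n := LinearEquiv.ofBijective π.toLinearMap ⟨hinj, hsurj⟩
  have hPe : ∀ a, Pe a = π a := fun _ => rfl
  -- coordinates
  let Φ : ℂ ⊗[R] B →ₗ[ℂ] (Fin N → ℂ) := LinearMap.pi fun k =>
    (TensorProduct.AlgebraTensorModule.rid R ℂ ℂ).toLinearMap.comp ((φ k).baseChange ℂ)
  have hΦ : ∀ (c : ℂ) (y : B) (k : Fin N), Φ (c ⊗ₜ[R] y) k = c * x (φ k y) := by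
    intro c y k
    show (TensorProduct.AlgebraTensorModule.rid R ℂ ℂ) ((φ k).baseChange ℂ (c ⊗ₜ[R] y)) = _
    rw [LinearMap.baseChange_tmul, TensorProduct.AlgebraTensorModule.rid_tmul, Algebra.smul_def,
      mul_comm]
    rfl
  let E : (Fin N → ℂ) →ₗ[ℂ] Mat n := ∑ l, (LinearMap.proj l).smulRight (s (b l))
  have hE : ∀ v, E v = ∑ l, v l • s (b l) := by
    intro v
    simp [E]
  let F : Mat n →ₗ[ℂ] (Fin N → ℂ) := Φ.comp Pe.symm.toLinearMap
  have hFs : ∀ y k, F (s y) k = x (φ k y) := by
    intro y k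
    have h1 : Pe.symm (s y) = (1 : ℂ) ⊗ₜ[R] y := by
      rw [LinearEquiv.symm_apply_eq, hPe, hπ, one_smul]
    show Φ (Pe.symm (s y)) k = _
    rw [h1, hΦ, one_mul]
  have hEF : ∀ m, E (F m) = m := by
    intro m
    obtain ⟨a, rfl⟩ := Pe.surjective m
    show E (Φ (Pe.symm (Pe a))) = _
    rw [LinearEquiv.symm_apply_apply, hE]
    have key : ∀ a : ℂ ⊗[R] B, ∑ l, Φ a l • s (b l) = π a := by
      intro a
      induction a using TensorProduct.induction_on with
      | zero => simp
      | tmul c y =>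
        rw [hπ]
        have e1 : s y = ∑ l, x (φ l y) • s (b l) := by
          conv_lhs => rw [← hb y, map_sum]
          refine Finset.sum_congr rfl (fun l _ => ?_)
          rw [Algebra.smul_def, map_mul, hs.scalar, ← Algebra.smul_def]
        rw [e1, Finset.smul_sum]
        exact Finset.sum_congr rfl (fun l _ => by rw [hΦ, smul_smul])
      | add a a' ha ha' =>
        rw [map_add, map_add, ← ha, ← ha', ← Finset.sum_add_distrib]
        exact Finset.sum_congr rfl (fun l _ => by rw [Pi.add_apply, add_smul])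
    rw [key]
    rfl
  have hEFc : E.comp F = LinearMap.id := LinearMap.ext hEF
  -- the map
  let G : Mat n →ₗ[ℂ] Mat N :=
    { toFun := fun m => LinearMap.toMatrix' (F.comp ((LinearMap.mulLeft ℂ m).comp E))
      map_add' := by
        intro m m'
        rw [← map_add]
        congr 1
        apply LinearMap.ext
        intro v
        show F ((m + m') * E v) = F (m * E v) + F (m' * E v)
        rw [add_mul, map_add]
      map_smul' := by
        intro c m
        rw [RingHom.id_apply, ← map_smul]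
        congr 1
        apply LinearMap.ext
        intro v
        show F ((c • m) * E v) = c • F (m * E v)
        rw [smul_mul_assoc, map_smul] }
  have hG : ∀ m, G m = LinearMap.toMatrix' (F.comp ((LinearMap.mulLeft ℂ m).comp E)) :=
    fun _ => rfl
  refine ⟨G, ?_, ?_, ?_⟩
  · intro m m'
    rw [hG, hG, hG, ← LinearMap.toMatrix'_comp]
    congr 1
    apply LinearMap.ext
    intro v
    simp only [LinearMap.comp_apply, LinearMap.mulLeft_apply, hEF, mul_assoc]
  · intro y
    rw [hG]
    ext k l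
    rw [LinearMap.toMatrix'_apply]
    simp only [LinearMap.comp_apply, LinearMap.mulLeft_apply]
    have h1 : E (Pi.single l 1) = s (b l) := by
      rw [hE]
      simp [Pi.single_apply]
    have h2 : F (s y * E (Pi.single l 1)) k = x (φ k (y * b l)) := by
      rw [h1, ← map_mul, hFs]
    exact h2
  · intro m
    rw [hG, ← LinearMap.toMatrix_eq_toMatrix', ← LinearMap.trace_eq_matrix_trace,
      LinearMap.trace_comp_comm', LinearMap.comp_assoc, hEFc, LinearMap.comp_id, trace_mulLeft]

end fact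

end Pool.Agent.W253.BM
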