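import Pool.Agent.W253.BM.Fact

/-!
BM-LOC, part 2: local existence of continuous families of spanning representations.
-/

open scoped TensorProduct Topology
open Matrix

namespace Pool.Agent.W253.BM

open Pool.Agent.W620.BM

lemma G_inj {n N : ℕ} (hn : 0 < n) (G : Mat n →ₗ[ℂ] Mat N)
    (h1 : ∀ m m', G (m * m') = G m * G m') (h3 : ∀ m, (G m).trace = n * m.trace) (m : Mat n)
    (h : G m = 0) : m = 0 := by
  rw [Matrix.ext_iff_trace_mul_left]
  intro m'
  have h4 := h3 (m' * m)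
  rw [h1, h, mul_zero, Matrix.trace_zero] at h4
  have hn' : (n : ℂ) ≠ 0 := by exact_mod_cast hn.ne'
  rw [mul_zero, Matrix.trace_zero]
  exact ((mul_eq_zero.1 h4.symm).resolve_left hn')

lemma rank_one {n : ℕ} (m : Mat n) (hm : m * m = m) :
    ∃ r : ℕ, m.trace = r ∧ (r = 1 → ∃ u v : Fin n → ℂ, m = vecMulVec u v) := by
  have hf : IsIdempotentElem (Matrix.toLin' m) := by
    show Matrix.toLin' m * Matrix.toLin' m = Matrix.toLin' m
    rw [Module.End.mul_eq_comp, ← Matrix.toLin'_mul, hm]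
  have h1 := (LinearMap.IsIdempotentElem.isProj_range _ hf).trace
  refine ⟨Module.finrank ℂ (LinearMap.range (Matrix.toLin' m)), ?_, ?_⟩
  · rw [← h1, Matrix.trace_toLin'_eq]
  · intro h2
    obtain ⟨u, hu0, hu⟩ := finrank_eq_one_iff'.1 h2
    have h3 : ∀ j, ∃ c : ℂ, ∀ i, m i j = c * (u : Fin n → ℂ) i := by
      intro j
      obtain ⟨c, hc⟩ := hu ⟨Matrix.toLin' m (Pi.single j 1), LinearMap.mem_range_self _ _⟩
      refine ⟨c, fun i => ?_⟩
      have h4 := congrFun (congrArg Subtype.val hc) i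
      have h5 : Matrix.toLin' m (Pi.single j 1) i = m i j := by
        rw [Matrix.toLin'_apply, Matrix.mulVec_single_one]
        rfl
      rw [← h5]
      exact h4.symm
    choose v hv using h3
    refine ⟨u, v, ?_⟩
    ext i j
    rw [vecMulVec_apply, hv, mul_comm]

section
variable {R B : Type} [CommRing R] [Ring B] [Algebra R B]

lemma lam_cont {T : Type} [TopologicalSpace T] {N : ℕ} (x : T → R →+* ℂ)
    (hx : ∀ r, Continuous fun θ => x θ r) (b : Fin N → B) (φ : Fin N → (B →ₗ[R] R)) (y : B) :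
    Continuous fun θ => lam (x θ) b φ y :=
  continuous_matrix (fun k l => hx (φ k (y * b l)))

lemma trace_vec {n : ℕ} (u v : Fin n → ℂ) (A X C : Mat n) :
    (vecMulVec u v * A * X * C).trace = (v ᵥ* A) ⬝ᵥ (X *ᵥ (C *ᵥ u)) := by
  rw [mul_assoc, mul_assoc, Matrix.vecMulVec_mul, Matrix.trace_vecMulVec, dotProduct_comm,
    ← Matrix.vecMul_vecMul, ← Matrix.dotProduct_mulVec, ← Matrix.mulVec_mulVec]

lemma conj_rep {n : ℕ} {x : R →+* ℂ} {s : B →+* Mat n} (hs : IsRep x s) (P : Mat n)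
    (hP : IsUnit P.det) : ∃ r : B →+* Mat n, IsRep x r ∧ ∀ y, r y = P⁻¹ * s y * P := by
  have h1 : P⁻¹ * P = 1 := Matrix.nonsing_inv_mul P hP
  have h2 : P * P⁻¹ = 1 := Matrix.mul_nonsing_inv P hP
  let r : B →+* Mat n :=
    { toFun := fun y => P⁻¹ * s y * P
      map_one' := by rw [map_one, mul_one, h1]
      map_mul' := by
        intro y z
        rw [map_mul]
        calc P⁻¹ * (s y * s z) * P = P⁻¹ * s y * (1 : Mat n) * s z * P := by
              simp only [mul_assoc, mul_one]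
          _ = P⁻¹ * s y * (P * P⁻¹) * s z * P := by rw [h2]
          _ = P⁻¹ * s y * P * (P⁻¹ * s z * P) := by simp only [mul_assoc]
      map_zero' := by simp
      map_add' := by
        intro y z
        rw [map_add, mul_add, add_mul] }
  have hr : ∀ y, r y = P⁻¹ * s y * P := fun _ => rfl
  refine ⟨r, ⟨fun c => ?_, ?_⟩, hr⟩
  · rw [hr, hs.scalar, ← Algebra.commutes, mul_assoc, h1, mul_one]
  · rw [eq_top_iff]
    intro M _
    have hM : P * M * P⁻¹ ∈ Submodule.span ℂ (Set.range s) := by rw [hs.span]; trivial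
    let f : Mat n →ₗ[ℂ] Mat n := (LinearMap.mulLeft ℂ P⁻¹).comp (LinearMap.mulRight ℂ P)
    have hf : ∀ A, f A = P⁻¹ * (A * P) := fun _ => rfl
    have h3 : f (P * M * P⁻¹) ∈ (Submodule.span ℂ (Set.range s)).map f :=
      Submodule.mem_map_of_mem hM
    have h4 : f (P * M * P⁻¹) = M := by
      rw [hf, mul_assoc (P * M), h1, mul_one, ← mul_assoc, h1, one_mul]
    rw [h4, Submodule.map_span] at h3
    refine Submodule.span_mono ?_ h3
    rintro _ ⟨_, ⟨y, rfl⟩, rfl⟩
    refine ⟨y, ?_⟩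
    rw [hr, hf, mul_assoc]

end

/-- BM-LOC -/
theorem loc (hcsa : S_csa) (hrep : S_rep) (hidem : S_idem) : S_loc := by
  classical
  intro R B _ _ _ _ T _ x hx θ₀ n hn ρ₀ hρ₀
  obtain ⟨N, b, φ, hb⟩ := exists_dual (R := R) (B := B)
  have hnC : (n : ℂ) ≠ 0 := by exact_mod_cast hn.ne'
  obtain ⟨G₀, hG0m, hG0s, hG0t⟩ := fact hcsa (x θ₀) hn ρ₀ hρ₀ b φ hb
  -- coefficients
  have hc : ∀ i j : Fin n, ∃ c : B →₀ ℂ, c.sum (fun y a => a • ρ₀ y) = single i j (1 : ℂ) := by
    intro i j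
    have h : single i j (1 : ℂ) ∈ Submodule.span ℂ (Set.range ρ₀) := by rw [hρ₀.span]; trivial
    rw [Finsupp.mem_span_range_iff_exists_finsupp] at h
    exact h
  choose c hc using hc
  set L : T → B → Mat N := fun θ y => lam (x θ) b φ y with hL
  set La : T → Fin n → Fin n → Mat N := fun θ i j => (c i j).sum (fun y a => a • L θ y) with hLa
  have hLc : ∀ y, Continuous (fun θ => L θ y) := fun y => lam_cont x hx b φ y
  have hLac : ∀ i j, Continuous (fun θ => La θ i j) := fun i j =>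
    continuous_finsetSum _ (fun y _ => show Continuous (fun θ => (c i j y) • L θ y) from
      (hLc y).const_smul (c i j y))
  have hLa0 : ∀ i j, La θ₀ i j = G₀ (single i j 1) := by
    intro i j
    rw [← hc, Finsupp.sum, map_sum]
    exact Finset.sum_congr rfl (fun y _ => by rw [map_smul, hG0s])
  set o : Fin n := ⟨0, hn⟩ with ho
  set p : Mat N := La θ₀ o o with hp
  have hpp : p * p = p := by
    rw [hp, hLa0, ← hG0m, single_mul_single_same, mul_one]
  obtain ⟨U, hU, Ef, hEc, hEp, hEf⟩ := hidem N p hpp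
  set W : Set T := {θ | La θ o o ∈ U} with hW
  have hWn : W ∈ 𝓝 θ₀ := (hLac o o).continuousAt.preimage_mem_nhds hU
  set e : T → Mat N := fun θ => Ef (La θ o o) with he
  have hec : ContinuousOn e W := hEc.comp (hLac o o).continuousOn (fun θ hθ => hθ)
  set β : T → B → Mat n := fun θ y => Matrix.of fun j i =>
    (n : ℂ)⁻¹ * (e θ * La θ o j * L θ y * La θ i o).trace with hβ
  have hβc : ∀ y, ContinuousOn (fun θ => β θ y) W := by
    intro y
    rw [continuousOn_iff_continuous_restrict]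
    refine continuous_matrix (fun j i => ?_)
    have h1 : ContinuousOn (fun θ => e θ * La θ o j * L θ y * La θ i o) W :=
      ((hec.mul (hLac o j).continuousOn).mul (hLc y).continuousOn).mul (hLac i o).continuousOn
    have h2 : ContinuousOn (fun θ => (n : ℂ)⁻¹ * (e θ * La θ o j * L θ y * La θ i o).trace) W :=
      ContinuousOn.mul continuousOn_const
        ((Continuous.matrix_trace continuous_id).comp_continuousOn h1)
    exact continuousOn_iff_continuous_restrict.1 h2
  -- values at the base point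
  have hL0 : (L θ₀ 1).trace = (n : ℂ) ^ 2 := by
    have h1 : L θ₀ 1 = G₀ 1 := by rw [← map_one ρ₀, hG0s]
    rw [h1, hG0t, Matrix.trace_one, Fintype.card_fin]
    ring
  have he0 : (e θ₀).trace = n := by
    show (Ef p).trace = n
    rw [hEp, hp, hLa0, hG0t]
    simp
  have hκ0 : β θ₀ 1 = 1 := by
    ext j i
    show (n : ℂ)⁻¹ * (Ef p * La θ₀ o j * L θ₀ 1 * La θ₀ i o).trace = _
    have h1 : L θ₀ 1 = G₀ 1 := by rw [← map_one ρ₀, hG0s]
    rw [hEp, hp, h1, hLa0, hLa0, hLa0, ← hG0m, ← hG0m, ← hG0m, hG0t, ← mul_assoc,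
      inv_mul_cancel₀ hnC, one_mul, single_mul_single_same, mul_one, mul_one]
    by_cases hij : j = i
    · subst hij
      simp
    · rw [single_mul_single_of_ne _ _ _ _ hij, Matrix.trace_zero, Matrix.one_apply_ne hij]
  -- the neighbourhood
  set V : Set T := {θ | θ ∈ W ∧ ‖(L θ 1).trace - (n : ℂ) ^ 2‖ < 1 ∧ ‖(e θ).trace - n‖ < 1 ∧
    (β θ 1).det ≠ 0} with hV
  have hVn : V ∈ 𝓝 θ₀ := by
    have a1 : ∀ᶠ θ in 𝓝 θ₀, ‖(L θ 1).trace - (n : ℂ) ^ 2‖ < 1 := by
      have h1 : Continuous (fun θ => ‖(L θ 1).trace - (n : ℂ) ^ 2‖) :=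
        ((Continuous.matrix_trace (hLc 1)).sub continuous_const).norm
      refine h1.continuousAt.eventually (gt_mem_nhds ?_)
      show ‖(L θ₀ 1).trace - (n : ℂ) ^ 2‖ < 1
      rw [hL0, sub_self, norm_zero]
      exact one_pos
    have hec0 : ContinuousAt e θ₀ := hec.continuousAt hWn
    have a2 : ∀ᶠ θ in 𝓝 θ₀, ‖(e θ).trace - n‖ < 1 := by
      have h1 : ContinuousAt (fun θ => ‖(e θ).trace - n‖) θ₀ :=
        (((Continuous.matrix_trace continuous_id).continuousAt.comp hec0).sub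
          continuousAt_const).norm
      refine h1.eventually (gt_mem_nhds ?_)
      show ‖(e θ₀).trace - n‖ < 1
      rw [he0, sub_self, norm_zero]
      exact one_pos
    have a3 : ∀ᶠ θ in 𝓝 θ₀, (β θ 1).det ≠ 0 := by
      have h1 : ContinuousAt (fun θ => (β θ 1).det) θ₀ :=
        (Continuous.matrix_det continuous_id).continuousAt.comp ((hβc 1).continuousAt hWn)
      refine h1.eventually_ne ?_
      show (β θ₀ 1).det ≠ 0
      rw [hκ0, Matrix.det_one]
      exact one_ne_zero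
    filter_upwards [hWn, a1, a2, a3] with θ h0 h1 h2 h3
    exact ⟨h0, h1, h2, h3⟩
  have key : ∀ θ ∈ V, ∃ r : B →+* Mat n, IsRep (x θ) r ∧ ∀ y, r y = (β θ 1)⁻¹ * β θ y := by
    rintro θ ⟨hθW, hθ1, hθ2, hθ3⟩
    obtain ⟨n', hn', s, hs⟩ := hrep R B (x θ)
    obtain ⟨G, hGm, hGs, hGt⟩ := fact hcsa (x θ) hn' s hs b φ hb
    have hnn : n' = n := by
      have h1 : L θ 1 = G 1 := by rw [← map_one s, hGs]
      rw [h1, hGt, Matrix.trace_one, Fintype.card_fin] at hθ1
      have h2 : ((n' : ℂ) * n' - (n : ℂ) ^ 2) = (((n' : ℤ) ^ 2 - (n : ℤ) ^ 2 : ℤ) : ℂ) := by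
        push_cast; ring
      rw [h2, Complex.norm_intCast] at hθ1
      have h3 : |((n' : ℤ) ^ 2 - (n : ℤ) ^ 2)| < 1 := by exact_mod_cast hθ1
      have h4 : (n' : ℤ) ^ 2 = (n : ℤ) ^ 2 := by
        rw [Int.abs_lt_one_iff] at h3
        linarith
      have h5 : n' ^ 2 = n ^ 2 := by exact_mod_cast h4
      exact Nat.pow_left_injective (by norm_num) h5
    subst hnn
    set Sa : Fin n' → Fin n' → Mat n' := fun i j => (c i j).sum (fun y a => a • s y) with hSa
    have hGSa : ∀ i j, G (Sa i j) = La θ i j := by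
      intro i j
      show G ((c i j).sum (fun y a => a • s y)) = (c i j).sum (fun y a => a • L θ y)
      rw [Finsupp.sum, map_sum]
      exact Finset.sum_congr rfl (fun y _ => by rw [map_smul, hGs])
    -- the idempotent
    obtain ⟨hidm, hin⟩ := hEf (La θ o o) hθW
    have hmem : e θ ∈ LinearMap.range G := by
      refine hin (LinearMap.range G) ?_ ⟨Sa o o, hGSa o o⟩
      rintro _ ⟨m, rfl⟩ _ ⟨m', rfl⟩
      exact ⟨m * m', hGm m m'⟩
    obtain ⟨m, hm⟩ := hmem
    have hmm : m * m = m := by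
      have h1 : G (m * m - m) = 0 := by
        rw [map_sub, hGm, hm]
        show Ef _ * Ef _ - Ef _ = 0
        rw [hidm, sub_self]
      have := G_inj hn G hGm hGt _ h1
      exact sub_eq_zero.1 this
    obtain ⟨r, hr, hr1⟩ := rank_one m hmm
    have hr' : r = 1 := by
      rw [← hm, hGt, hr] at hθ2
      have h2 : ((n' : ℂ) * (r : ℂ) - (n' : ℂ)) = (((n' : ℤ) * (r : ℤ) - (n' : ℤ) : ℤ) : ℂ) := by
        push_cast; ring
      rw [h2, Complex.norm_intCast] at hθ2
      have h3 : |((n' : ℤ) * (r : ℤ) - (n' : ℤ))| < 1 := by exact_mod_cast hθ2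
      rw [Int.abs_lt_one_iff] at h3
      have h4 : (n' : ℤ) * ((r : ℤ) - 1) = 0 := by linarith
      rcases mul_eq_zero.1 h4 with h5 | h5
      · exfalso
        have : n' = 0 := by exact_mod_cast h5
        omega
      · omega
    obtain ⟨u, v, huv⟩ := hr1 hr'
    set Vm : Mat n' := Matrix.of fun j => v ᵥ* Sa o j with hVm
    set Um : Mat n' := Matrix.of fun k i => (Sa i o *ᵥ u) k with hUm
    have hβ' : ∀ y, β θ y = Vm * s y * Um := by
      intro y
      ext j i
      show (n' : ℂ)⁻¹ * (e θ * La θ o j * L θ y * La θ i o).trace = _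
      have h1 : L θ y = G (s y) := (hGs y).symm
      rw [← hm, ← hGSa, ← hGSa, h1, ← hGm, ← hGm, ← hGm, hGt, ← mul_assoc,
        inv_mul_cancel₀ hnC, one_mul, huv, trace_vec, mul_assoc, Matrix.mul_apply]
      rfl
    have hκ : β θ 1 = Vm * Um := by rw [hβ', map_one, mul_one]
    have hdet : Vm.det * Um.det ≠ 0 := by
      rw [← Matrix.det_mul, ← hκ]
      exact hθ3
    have hVu : IsUnit Vm.det := (left_ne_zero_of_mul hdet).isUnit
    have hUu : IsUnit Um.det := (right_ne_zero_of_mul hdet).isUnit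
    obtain ⟨r', hr'1, hr'2⟩ := conj_rep hs Um hUu
    refine ⟨r', hr'1, fun y => ?_⟩
    rw [hr'2, hκ, hβ', Matrix.mul_inv_rev]
    calc Um⁻¹ * s y * Um = Um⁻¹ * (1 : Mat n') * s y * Um := by rw [mul_one]
      _ = Um⁻¹ * (Vm⁻¹ * Vm) * s y * Um := by rw [Matrix.nonsing_inv_mul Vm hVu]
      _ = Um⁻¹ * Vm⁻¹ * (Vm * s y * Um) := by simp only [mul_assoc]
  have hne : Nonempty (B →+* Mat n) := ⟨ρ₀⟩
  choose! ρ hρ1 hρ2 using key
  refine ⟨V, hVn, fun θ => if θ ∈ V then ρ θ else ρ₀, ?_, ?_⟩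
  · intro θ hθ
    show IsRep (x θ) (if θ ∈ V then ρ θ else ρ₀)
    rw [if_pos hθ]
    exact hρ1 θ hθ
  · intro y
    have h1 : ContinuousOn (fun θ => (β θ 1)⁻¹ * β θ y) V := by
      have hVW : V ⊆ W := fun θ hθ => hθ.1
      refine ContinuousOn.mul ?_ ((hβc y).mono hVW)
      have h2 : ∀ θ ∈ V, (β θ 1)⁻¹ = ((β θ 1).det)⁻¹ • (β θ 1).adjugate := by
        intro θ hθ
        rw [Matrix.inv_def, Ring.inverse_eq_inv']
      refine ContinuousOn.congr ?_ h2
      have h3 : ContinuousOn (fun θ => ((β θ 1).det)⁻¹) V :=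
        ((Continuous.matrix_det continuous_id).comp_continuousOn
          ((hβc 1).mono hVW)).inv₀ (fun θ hθ => hθ.2.2.2)
      have h4 : ContinuousOn (fun θ => (β θ 1).adjugate) V :=
        (Continuous.matrix_adjugate continuous_id).comp_continuousOn ((hβc 1).mono hVW)
      exact h3.smul h4
    refine h1.congr (fun θ hθ => ?_)
    show (if θ ∈ V then ρ θ else ρ₀) y = _
    rw [if_pos hθ]
    exact hρ2 θ hθ y

end Pool.Agent.W253.BM
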